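import Pool.Agent.Helper69.UX.StD

/-!
# Project UX (MP_e12aa9_pr), module SML: many pairs in small blocks
-/

set_option autoImplicit false

namespace Pool.Agent.Helper38.UX

open Finset Filter Pool.Agent.Helper82.CN Pool.Agent.Helper11.PV Pool.Agent.Helper69.VX Pool.Agent.Helper69.UX

section sets

variable {V : Type} [DecidableEq V]

theorem mxb_le_card (Q : Finset (Finset V)) (A : Finset V) : mxb Q A ≤ A.card :=
  Finset.sup_le fun _ _ => card_le_card inter_subset_left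

theorem mxb_attained (Q : Finset (Finset V)) (A : Finset V) (h : 0 < mxb Q A) :
    ∃ B ∈ Q, (A ∩ B).card = mxb Q A := by
  have hne : Q.Nonempty := by
    by_contra h0
    rw [not_nonempty_iff_eq_empty] at h0
    subst h0
    simp [mxb] at h
  obtain ⟨B, hB, h1⟩ := Finset.exists_mem_eq_sup Q hne (fun B => (A ∩ B).card)
  exact ⟨B, hB, h1.symm⟩

theorem ovB_le_ovl (R : ℕ) (P Q : Finset (Finset V)) : ovB R P Q ≤ ovl P Q := by
  unfold ovB ovl bigS
  rw [sum_filter]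
  apply sum_le_sum
  intro A _
  split_ifs with h
  · obtain ⟨B, hB, h1⟩ := mxb_attained Q A (by omega)
    rw [← h1]
    exact single_le_sum (f := fun B => (A ∩ B).card.choose 2) (fun _ _ => Nat.zero_le _) hB
  · exact Nat.zero_le _

theorem ovB_le_sq (R T : ℕ) (P Q : Finset (Finset V)) (hP : ∀ A ∈ P, A.card ≤ T + 1) :
    ovB R P Q ≤ (bigS R P Q).card * (T + 1) ^ 2 := by
  unfold ovB
  rw [← smul_eq_mul]
  apply sum_le_card_nsmul
  intro A hA
  have hA' : A ∈ P := by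
    unfold bigS at hA
    exact (mem_filter.1 hA).1
  calc (mxb Q A).choose 2 ≤ (mxb Q A) ^ 2 := Nat.choose_le_pow _ _
    _ ≤ (T + 1) ^ 2 := Nat.pow_le_pow_left ((mxb_le_card Q A).trans (hP A hA')) 2

theorem bigS_sub (R : ℕ) (P Q : Finset (Finset V)) : bigS R P Q ⊆ P := by
  unfold bigS
  exact filter_subset _ _

theorem card_le_NR [Fintype V] (R T : ℕ) (P Q : Finset (Finset V))
    (hP : ∀ A ∈ P, A.card ≤ T + 1) :
    Fintype.card V ≤ NR R P Q + (bigS R P Q).card * (T + 1) := by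
  have h1 : ∑ A ∈ bigS R P Q, mxb Q A ≤ (bigS R P Q).card * (T + 1) := by
    rw [← smul_eq_mul]
    apply sum_le_card_nsmul
    intro A hA
    exact (mxb_le_card Q A).trans (hP A (bigS_sub R P Q hA))
  unfold NR
  omega

theorem NR_le [Fintype V] (R : ℕ) (P Q : Finset (Finset V)) : NR R P Q ≤ Fintype.card V := by
  unfold NR
  omega

theorem pt_sum_le [Fintype V] (P : Finset (Finset V)) (hP : P ∈ Pt V) :
    ∑ A ∈ P, A.card ≤ Fintype.card V := by
  unfold Pt at hP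
  simp only [mem_filter, mem_univ, true_and] at hP
  have h : (P.biUnion id).card = ∑ A ∈ P, A.card := by
    rw [card_biUnion]
    · rfl
    · intro A hA B hB hAB
      exact hP.2.1 A hA B hB hAB
  rw [← h]
  exact card_le_univ _

theorem pt_card_le [Fintype V] (P : Finset (Finset V)) (hP : P ∈ Pt V) :
    P.card ≤ Fintype.card V := by
  refine le_trans ?_ (pt_sum_le P hP)
  rw [card_eq_sum_ones]
  apply sum_le_sum
  intro A hA
  unfold Pt at hP
  simp only [mem_filter, mem_univ, true_and] at hP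
  exact card_pos.2 (hP.1 A hA)

end sets

theorem pw_nonneg {V : Type} (κ : ℕ → ℝ) (hκ : ∀ v, 0 ≤ κ v) (Q : Finset (Finset V)) :
    0 ≤ pw (gf κ) Q := by
  unfold pw
  apply prod_nonneg
  intro A _
  unfold gf
  exact mul_nonneg (Nat.cast_nonneg _) (hκ _)

theorem FF_nonneg (p : ℝ) (hp : p < 1) (n T R : ℕ) (κ : ℕ → ℝ) (hκ : ∀ v, 0 ≤ κ v) (c : ℕ) :
    0 ≤ FF p n T R κ c := by
  have h1 : (0 : ℝ) ≤ 1 / (1 - p) := by
    apply div_nonneg zero_le_one
    linarith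
  unfold FF
  apply sum_nonneg
  intro r _
  apply mul_nonneg
  · apply div_nonneg
    · exact mul_nonneg (Nat.cast_nonneg _) (pow_nonneg h1 _)
    · positivity
  · apply sum_nonneg
    intro v _
    unfold gf
    exact div_nonneg (mul_nonneg (Nat.cast_nonneg _) (hκ _)) (Nat.cast_nonneg _)

/-- numbers -/
theorem nums (ε L δ x th : ℝ) (T : ℕ) (hε : 0 < ε) (hε1 : ε ≤ 1 / 24) (hL : 0 < L)
    (hδ : 0 < δ) (hd1 : δ ≤ ε / 4) (hd2 : δ ≤ ε ^ 2 * L / 128) (hx : 1 ≤ x)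
    (hlog : 1 / δ ≤ Real.log x) (hT : 4 ≤ T) (hT8 : (T : ℝ) ^ 8 ≤ x ^ δ)
    (hl8 : Real.log x ^ 8 ≤ x ^ δ) (hth : 1 / 2 ≤ th) (hth2 : th ≤ 1 - 12 * ε) :
    8 ≤ ε * L / 16 * x ^ ε ∧ 5 ≤ x ^ ε ∧ 2 * ((T : ℝ) + 1) ^ 2 ≤ x ^ ε ∧
    (T : ℝ) ^ 3 ≤ x ^ (th + 6 * ε) ∧ Real.log x ≤ x ^ (th + 6 * ε) ∧ 1 ≤ x ^ (th + 6 * ε) ∧
    x ^ (th + ε) ≤ x ^ (th + 6 * ε) ∧
    (x ^ (th + 6 * ε) * (T + 1)) ^ 2 / x ≤ x ^ (th + ε) ∧
    x ^ (th + 6 * ε) * (T + 1) ≤ x / 2 ∧ x ^ (1 / 2 + ε) ≤ x / 2 := by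
  have hx0 : 0 < x := by linarith
  have hl1 : 1 ≤ Real.log x := by
    have : 1 ≤ 1 / δ := by
      rw [le_div_iff₀ hδ]
      linarith
    linarith
  have hE : 1 + ε * Real.log x ≤ x ^ ε := by
    rw [Real.rpow_def_of_pos hx0]
    have := Real.add_one_le_exp (Real.log x * ε)
    linarith
  have hεd : ε / δ ≤ ε * Real.log x := by
    have := mul_le_mul_of_nonneg_left hlog hε.le
    rwa [mul_one_div] at this
  have hE5 : 5 ≤ x ^ ε := by
    have : 4 ≤ ε / δ := by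
      rw [le_div_iff₀ hδ]
      linarith
    linarith
  have hE8 : 8 ≤ ε * L / 16 * x ^ ε := by
    have h1 : 128 / (ε * L) ≤ ε / δ := by
      rw [div_le_div_iff₀ (by positivity) hδ]
      nlinarith
    have h2 : 128 / (ε * L) ≤ x ^ ε := by linarith
    have h3 : ε * L / 16 * (128 / (ε * L)) ≤ ε * L / 16 * x ^ ε :=
      mul_le_mul_of_nonneg_left h2 (by positivity)
    have h4 : ε * L / 16 * (128 / (ε * L)) = 8 := by
      field_simp
      norm_num
    linarith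
  have hmono : ∀ a b : ℝ, a ≤ b → x ^ a ≤ x ^ b := fun a b h =>
    Real.rpow_le_rpow_of_exponent_le hx h
  have hTR : (4 : ℝ) ≤ T := by exact_mod_cast hT
  have hTe : 2 * ((T : ℝ) + 1) ^ 2 ≤ x ^ ε := by
    have h1 : 2 * ((T : ℝ) + 1) ^ 2 ≤ (T : ℝ) ^ 8 := by
      have h2 : ((T : ℝ) + 1) ^ 2 ≤ (2 * T) ^ 2 := by
        apply pow_le_pow_left₀ (by linarith)
        linarith
      have h3 : (8 : ℝ) ≤ (T : ℝ) ^ 6 := by
        calc (8 : ℝ) ≤ 4 ^ 6 := by norm_num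
          _ ≤ (T : ℝ) ^ 6 := pow_le_pow_left₀ (by norm_num) hTR 6
      have h4 : (T : ℝ) ^ 8 = (T : ℝ) ^ 6 * (T : ℝ) ^ 2 := by ring
      have h5 : 8 * (T : ℝ) ^ 2 ≤ (T : ℝ) ^ 6 * (T : ℝ) ^ 2 :=
        mul_le_mul_of_nonneg_right h3 (by positivity)
      nlinarith
    exact h1.trans (hT8.trans (hmono _ _ (by linarith)))
  have hy1 : 1 ≤ x ^ (th + 6 * ε) := Real.one_le_rpow hx (by linarith)
  have hT3 : (T : ℝ) ^ 3 ≤ x ^ (th + 6 * ε) := by
    have h1 : (T : ℝ) ^ 3 ≤ (T : ℝ) ^ 8 := pow_le_pow_right₀ (by linarith) (by norm_num)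
    exact h1.trans (hT8.trans (hmono _ _ (by linarith)))
  have hly : Real.log x ≤ x ^ (th + 6 * ε) := by
    have h1 : Real.log x ≤ Real.log x ^ 8 := le_self_pow₀ hl1 (by norm_num)
    exact h1.trans (hl8.trans (hmono _ _ (by linarith)))
  have hye : x ^ (th + ε) ≤ x ^ (th + 6 * ε) := hmono _ _ (by linarith)
  have hT1 : 2 * ((T : ℝ) + 1) ≤ x ^ ε := by
    have : (T : ℝ) + 1 ≤ ((T : ℝ) + 1) ^ 2 := le_self_pow₀ (by linarith) (by norm_num)
    linarith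
  refine ⟨hE8, hE5, hTe, hT3, hly, hy1, hye, ?_, ?_, ?_⟩
  · have h1 : (x ^ (th + 6 * ε) * (T + 1)) ^ 2 = x ^ (2 * th + 12 * ε) * ((T : ℝ) + 1) ^ 2 := by
      rw [mul_pow, ← Real.rpow_natCast (x ^ (th + 6 * ε)), ← Real.rpow_mul hx0.le]
      congr 2
      push_cast
      ring
    have h2 : x ^ (2 * th + 12 * ε) * ((T : ℝ) + 1) ^ 2 ≤ x ^ (2 * th + 12 * ε) * x ^ ε :=
      mul_le_mul_of_nonneg_left (by nlinarith) (Real.rpow_nonneg hx0.le _)
    rw [h1, div_le_iff₀ hx0]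
    refine h2.trans ?_
    rw [← Real.rpow_add hx0]
    calc x ^ (2 * th + 12 * ε + ε) ≤ x ^ (th + ε + 1) := hmono _ _ (by linarith)
      _ = x ^ (th + ε) * x := by rw [Real.rpow_add hx0, Real.rpow_one]
  · have h1 : x ^ (th + 6 * ε) * (T + 1) ≤ x ^ (th + 6 * ε) * (x ^ ε / 2) :=
      mul_le_mul_of_nonneg_left (by linarith) (by linarith)
    have h2 : x ^ (th + 6 * ε) * x ^ ε ≤ x := by
      rw [← Real.rpow_add hx0]
      calc x ^ (th + 6 * ε + ε) ≤ x ^ (1 : ℝ) := hmono _ _ (by linarith)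
        _ = x := Real.rpow_one x
    linarith
  · have h1 : x ^ (1 / 2 + ε) * x ^ ε ≤ x := by
      rw [← Real.rpow_add hx0]
      calc x ^ (1 / 2 + ε + ε) ≤ x ^ (1 : ℝ) := hmono _ _ (by linarith)
        _ = x := Real.rpow_one x
    have h2 : 0 ≤ x ^ (1 / 2 + ε) := Real.rpow_nonneg hx0.le _
    have h3 : x ^ (1 / 2 + ε) * 2 ≤ x ^ (1 / 2 + ε) * x ^ ε :=
      mul_le_mul_of_nonneg_left (by linarith) h2
    linarith

/-- the weight of a partition with many pairs in small blocks -/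
theorem weight_le (L ε y E : ℝ) (B O : ℕ) (hε : 0 < ε) (hL : 0 < L) (hBO : B ≤ O)
    (hB : (B : ℝ) ≤ y * E / 2) (hO : y * E < O) :
    Real.exp L ^ O ≤ Real.exp (-(ε * L / 16 * (y * E))) *
      (Real.exp L ^ B * Real.exp ((1 + ε / 8) * L) ^ (O - B)) := by
  have h1 : Real.exp L ^ O = Real.exp L ^ B * Real.exp L ^ (O - B) := by
    rw [← pow_add, Nat.add_sub_cancel' hBO]
  have hk : y * E / 2 ≤ ((O - B : ℕ) : ℝ) := by
    rw [Nat.cast_sub hBO]
    linarith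
  have h2 : Real.exp L ^ (O - B) ≤ Real.exp (-(ε * L / 16 * (y * E))) *
      Real.exp ((1 + ε / 8) * L) ^ (O - B) := by
    rw [← Real.exp_nat_mul, ← Real.exp_nat_mul, ← Real.exp_add, Real.exp_le_exp]
    have h3 : ε * L / 8 * (y * E / 2) ≤ ε * L / 8 * ((O - B : ℕ) : ℝ) :=
      mul_le_mul_of_nonneg_left hk (by positivity)
    nlinarith
  rw [h1]
  calc Real.exp L ^ B * Real.exp L ^ (O - B)
      ≤ Real.exp L ^ B * (Real.exp (-(ε * L / 16 * (y * E))) *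
          Real.exp ((1 + ε / 8) * L) ^ (O - B)) :=
        mul_le_mul_of_nonneg_left h2 (by positivity)
    _ = _ := by ring

theorem hSML (hOVN : StOVN) (hFBD : StFBD) (hFAC : StFAC) (hSIZ : StSIZ) : StSML := by
  intro p ε hp0 hp1 hε hε1
  have hp2 : p < 1 := by
    have : 0 < 1 / Real.exp 2 := by positivity
    linarith
  have hq : 0 < 1 - p := by linarith
  have hq1 : 1 < 1 / (1 - p) := by
    rw [lt_div_iff₀ hq]
    linarith
  have hL : 0 < bb p := Real.log_pos hq1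
  have hbL : Real.exp (bb p) = 1 / (1 - p) := Real.exp_log (by positivity)
  obtain ⟨n1, h1⟩ := hOVN p ε hp0 hp1 hε hε1
  obtain ⟨n2, h2⟩ := hFBD p ε ε 0 hp0 hp1 hε hε1 hε
  obtain ⟨δ, hδd⟩ : ∃ δ : ℝ, δ = min (ε / 4) (ε ^ 2 * bb p / 128) := ⟨_, rfl⟩
  have hδ : 0 < δ := by
    rw [hδd]
    apply lt_min <;> positivity
  have hd1 : δ ≤ ε / 4 := by
    rw [hδd]
    exact min_le_left _ _
  have hd2 : δ ≤ ε ^ 2 * bb p / 128 := by
    rw [hδd]
    exact min_le_right _ _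
  obtain ⟨n3, h3⟩ := hSIZ p ε δ 0 hp0 hp1 hε hε1 hδ
  refine ⟨max n1 (max n2 (max n3 1)), ?_⟩
  intro n T th κ P hn hW hWt hP hPc
  have hn1 : n1 ≤ n := le_trans (le_max_left _ _) hn
  have hn' : max n2 (max n3 1) ≤ n := le_trans (le_max_right _ _) hn
  have hn2 : n2 ≤ n := le_trans (le_max_left _ _) hn'
  have hn'' : max n3 1 ≤ n := le_trans (le_max_right _ _) hn'
  have hn3 : n3 ≤ n := le_trans (le_max_left _ _) hn''
  have hn4 : 1 ≤ n := le_trans (le_max_right _ _) hn''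
  have hx1 : (1 : ℝ) ≤ n := by exact_mod_cast hn4
  have hx0 : (0 : ℝ) < n := by linarith
  have hz := h3 n T th hn3 hW
  obtain ⟨-, hth, hth2⟩ := id hW
  obtain ⟨e1, e2, e3, e4, e5, e6, e7, e8, e9, e10⟩ := nums ε (bb p) δ n th T hε hε1 hL hδ hd1 hd2
    hx1 hz.t0 (by have := hz.t4; omega) hz.t3 hz.t6 hth hth2
  obtain ⟨R, hR⟩ : ∃ R : ℕ, R = RR ε T := ⟨_, rfl⟩
  obtain ⟨y, hy⟩ : ∃ y : ℝ, y = (n : ℝ) ^ (th + 6 * ε) := ⟨_, rfl⟩
  have hyE : (n : ℝ) ^ (th + 7 * ε) = y * (n : ℝ) ^ ε := by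
    rw [hy, ← Real.rpow_add hx0]
    congr 1
    ring
  rw [← hR, hyE, ← hy]
  rw [← hy] at e4 e5 e6 e7 e8 e9
  -- the weight of a partition
  have hF0 : ∀ Q : Finset (Finset (Fin n)), 0 ≤ pw (gf κ) Q * ((1 / (1 - p)) ^ ovB R P Q *
      Real.exp ((1 + ε / 8) * bb p) ^ (ovl P Q - ovB R P Q)) := by
    intro Q
    have := pw_nonneg κ hWt.nn Q
    positivity
  obtain ⟨S, hS⟩ : ∃ S : Finset (Finset (Finset (Fin n))), S = (Pt (Fin n)).filter
      (fun Q => ((bigS R P Q).card : ℝ) ≤ y ∧ y * (n : ℝ) ^ ε < ovl P Q) := ⟨_, rfl⟩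
  have hSm : ∀ Q ∈ S, Q ∈ Pt (Fin n) ∧ ((bigS R P Q).card : ℝ) ≤ y ∧
      y * (n : ℝ) ^ ε < ovl P Q := by
    intro Q hQ
    rw [hS] at hQ
    simpa using hQ
  rw [← hS]
  have hA : ∑ Q ∈ S, pw (gf κ) Q * (1 / (1 - p)) ^ ovl P Q ≤
      Real.exp (-(ε * bb p / 16 * (y * (n : ℝ) ^ ε))) * ∑ Q ∈ S, pw (gf κ) Q *
        ((1 / (1 - p)) ^ ovB R P Q *
          Real.exp ((1 + ε / 8) * bb p) ^ (ovl P Q - ovB R P Q)) := by
    rw [mul_sum]
    apply sum_le_sum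
    intro Q hQ
    obtain ⟨-, hQ1, hQ2⟩ := hSm Q hQ
    have hB : (ovB R P Q : ℝ) ≤ y * (n : ℝ) ^ ε / 2 := by
      have h4 : (ovB R P Q : ℝ) ≤ (bigS R P Q).card * ((T : ℝ) + 1) ^ 2 := by
        exact_mod_cast ovB_le_sq R T P Q hPc
      have h5 : ((bigS R P Q).card : ℝ) * ((T : ℝ) + 1) ^ 2 ≤ y * ((T : ℝ) + 1) ^ 2 :=
        mul_le_mul_of_nonneg_right hQ1 (by positivity)
      have h6 : y * (2 * ((T : ℝ) + 1) ^ 2) ≤ y * (n : ℝ) ^ ε :=
        mul_le_mul_of_nonneg_left e3 (by linarith)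
      linarith
    have h7 := weight_le (bb p) ε y ((n : ℝ) ^ ε) (ovB R P Q) (ovl P Q) hε hL
      (ovB_le_ovl R P Q) hB hQ2
    rw [hbL] at h7
    have h8 := mul_le_mul_of_nonneg_left h7 (pw_nonneg κ hWt.nn Q)
    calc _ ≤ _ := h8
      _ = _ := by ring
  -- the sum over the fibres
  obtain ⟨J, hJ⟩ : ∃ J : Finset (Finset (Finset (Fin n)) × ℕ), J =
      (P.powerset.filter fun I => (I.card : ℝ) ≤ y) ×ˢ
        ((range (n + 1)).filter fun N : ℕ => (n : ℝ) ^ (1 / 2 + ε) ≤ (N : ℝ)) := ⟨_, rfl⟩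
  have hmaps : ∀ Q ∈ S, (bigS R P Q, NR R P Q) ∈ J := by
    intro Q hQ
    obtain ⟨-, hQ1, -⟩ := hSm Q hQ
    rw [hJ]
    simp only [mem_product, mem_filter, mem_powerset, mem_range]
    refine ⟨⟨bigS_sub R P Q, hQ1⟩, ?_, ?_⟩
    · have := NR_le R P Q
      rw [Fintype.card_fin] at this
      omega
    · have h4 : (n : ℝ) ≤ NR R P Q + (bigS R P Q).card * ((T : ℝ) + 1) := by
        have := card_le_NR R T P Q hPc
        rw [Fintype.card_fin] at this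
        exact_mod_cast this
      have h5 : ((bigS R P Q).card : ℝ) * ((T : ℝ) + 1) ≤ y * ((T : ℝ) + 1) :=
        mul_le_mul_of_nonneg_right hQ1 (by positivity)
      linarith
  have hfib : ∑ Q ∈ S, pw (gf κ) Q * ((1 / (1 - p)) ^ ovB R P Q *
      Real.exp ((1 + ε / 8) * bb p) ^ (ovl P Q - ovB R P Q)) ≤
      ∑ j ∈ J, ∑ Q ∈ (Pt (Fin n)).filter (fun Q => bigS R P Q = j.1 ∧ NR R P Q = j.2),
        pw (gf κ) Q * (1 / (1 - p)) ^ ovB R P Q *
          Real.exp ((1 + ε / 8) * bb p) ^ (ovl P Q - ovB R P Q) := by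
    rw [← sum_fiberwise_of_maps_to hmaps]
    apply sum_le_sum
    intro j _
    simp only [mul_assoc]
    apply sum_le_sum_of_subset_of_nonneg
    · intro Q hQ
      simp only [mem_filter] at hQ ⊢
      obtain ⟨hQ1, hQ2⟩ := hQ
      refine ⟨(hSm Q hQ1).1, ?_, ?_⟩
      · exact congrArg Prod.fst hQ2
      · exact congrArg Prod.snd hQ2
    · intro Q _ _
      exact hF0 Q
  -- the bound for a fibre
  obtain ⟨W, hWd⟩ : ∃ W : ℝ, W = (n.factorial : ℝ) * Real.exp ((T : ℝ) ^ 3 + 1 + Real.log n +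
      ∑ v ∈ range (T + 2), κ v + (n : ℝ) ^ (th + ε)) := ⟨_, rfl⟩
  have hW0 : 0 ≤ W := by
    rw [hWd]
    positivity
  have hfb : ∀ j ∈ J, ∑ Q ∈ (Pt (Fin n)).filter (fun Q => bigS R P Q = j.1 ∧ NR R P Q = j.2),
      pw (gf κ) Q * (1 / (1 - p)) ^ ovB R P Q *
        Real.exp ((1 + ε / 8) * bb p) ^ (ovl P Q - ovB R P Q) ≤
      W * ∏ C ∈ j.1, (n : ℝ) ^ (-th + ε) := by
    intro j hj
    rw [hJ] at hj
    simp only [mem_product, mem_filter, mem_powerset, mem_range] at hj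
    obtain ⟨⟨hj1, hj2⟩, -, hj3⟩ := hj
    have h4 := h1 n T j.2 th (Real.exp ((1 + ε / 8) * bb p)) κ P j.1 hn1 hW hWt hP hPc hj1
      (by
        rw [← hbL, Real.exp_le_exp]
        nlinarith) le_rfl hj3
    rw [← hR] at h4
    have hs1 : ((∑ C ∈ j.1, C.card : ℕ) : ℝ) ≤ y * (T + 1) := by
      have h5 : ∑ C ∈ j.1, C.card ≤ j.1.card * (T + 1) := by
        rw [← smul_eq_mul]
        apply sum_le_card_nsmul
        intro A hA
        exact hPc A (hj1 hA)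
      have h6 : ((∑ C ∈ j.1, C.card : ℕ) : ℝ) ≤ (j.1.card : ℝ) * (T + 1) := by
        exact_mod_cast h5
      have h7 : (j.1.card : ℝ) * ((T : ℝ) + 1) ≤ y * (T + 1) :=
        mul_le_mul_of_nonneg_right hj2 (by positivity)
      linarith
    have hs0 : (0 : ℝ) ≤ ((∑ C ∈ j.1, C.card : ℕ) : ℝ) := Nat.cast_nonneg _
    have hY : n * (((∑ C ∈ j.1, C.card : ℕ) : ℝ) / n - ph (((∑ C ∈ j.1, C.card : ℕ) : ℝ) / n)) ≤
        (n : ℝ) ^ (th + ε) := by
      have h5 := (hFAC.2.1 (((∑ C ∈ j.1, C.card : ℕ) : ℝ) / n) (by positivity) (by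
        rw [div_le_one hx0]
        linarith)).1
      have h6 := mul_le_mul_of_nonneg_left h5 hx0.le
      refine h6.trans (le_trans ?_ e8)
      have h7 : (n : ℝ) * (((∑ C ∈ j.1, C.card : ℕ) : ℝ) / n) ^ 2 =
          ((∑ C ∈ j.1, C.card : ℕ) : ℝ) ^ 2 / n := by
        field_simp
      rw [h7]
      exact div_le_div_of_nonneg_right (pow_le_pow_left₀ hs0 hs1 2) hx0.le
    refine h4.trans ?_
    rw [hWd]
    apply mul_le_mul
    · apply mul_le_mul_of_nonneg_left _ (Nat.cast_nonneg _)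
      rw [Real.exp_le_exp]
      linarith
    · apply Finset.prod_le_prod
      · intro C _
        exact FF_nonneg p hp2 n T R κ hWt.nn _
      · intro C hC
        have h5 := (h2 n T th κ hn2 hW hWt).1 C.card (hPc C (hj1 hC))
        rw [← hR] at h5
        simpa using h5
    · apply prod_nonneg
      intro C _
      exact FF_nonneg p hp2 n T R κ hWt.nn _
    · positivity
  have hsum1 : ∑ j ∈ J, W * ∏ C ∈ j.1, (n : ℝ) ^ (-th + ε) ≤
      (n + 1) * (W * Real.exp ((n : ℝ) ^ (th + ε))) := by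
    rw [hJ, sum_product_right]
    have h4 : ∀ N ∈ (range (n + 1)).filter (fun N : ℕ => (n : ℝ) ^ (1 / 2 + ε) ≤ N),
        ∑ I ∈ P.powerset.filter (fun I => (I.card : ℝ) ≤ y), W * ∏ C ∈ I, (n : ℝ) ^ (-th + ε) ≤
        W * Real.exp ((n : ℝ) ^ (th + ε)) := by
      intro N _
      rw [← mul_sum]
      apply mul_le_mul_of_nonneg_left _ hW0
      have h5 : ∑ I ∈ P.powerset.filter (fun I => (I.card : ℝ) ≤ y),
          ∏ C ∈ I, (n : ℝ) ^ (-th + ε) ≤ ∑ I ∈ P.powerset, ∏ C ∈ I, (n : ℝ) ^ (-th + ε) := by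
        apply sum_le_sum_of_subset_of_nonneg (filter_subset _ _)
        intro I _ _
        positivity
      refine h5.trans ?_
      rw [← prod_one_add]
      have h6 : ∏ C ∈ P, (1 + (n : ℝ) ^ (-th + ε)) ≤ ∏ C ∈ P, Real.exp ((n : ℝ) ^ (-th + ε)) := by
        apply Finset.prod_le_prod
        · intro C _
          positivity
        · intro C _
          have := Real.add_one_le_exp ((n : ℝ) ^ (-th + ε))
          linarith
      refine h6.trans ?_
      rw [prod_const, ← Real.exp_nat_mul, Real.exp_le_exp]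
      have h7 : (P.card : ℝ) ≤ n := by
        have := pt_card_le P hP
        rw [Fintype.card_fin] at this
        exact_mod_cast this
      calc (P.card : ℝ) * (n : ℝ) ^ (-th + ε) ≤ n * (n : ℝ) ^ (-th + ε) :=
            mul_le_mul_of_nonneg_right h7 (by positivity)
        _ = (n : ℝ) ^ (1 + (-th + ε)) := by rw [Real.rpow_add hx0 1 (-th + ε), Real.rpow_one]
        _ ≤ (n : ℝ) ^ (th + ε) := Real.rpow_le_rpow_of_exponent_le hx1 (by linarith)
    refine (sum_le_card_nsmul _ _ _ h4).trans ?_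
    rw [nsmul_eq_mul]
    apply mul_le_mul_of_nonneg_right _ (by positivity)
    have h5 : ((range (n + 1)).filter (fun N : ℕ => (n : ℝ) ^ (1 / 2 + ε) ≤ N)).card ≤ n + 1 := by
      refine (card_filter_le _ _).trans ?_
      rw [card_range]
    exact_mod_cast h5
  have hn1e : (n : ℝ) + 1 ≤ Real.exp (1 + Real.log n) := by
    rw [Real.exp_add, Real.exp_log hx0]
    have := Real.exp_one_gt_d9
    nlinarith
  have htot : ∑ Q ∈ S, pw (gf κ) Q * (1 / (1 - p)) ^ ovl P Q ≤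
      Real.exp (-(ε * bb p / 16 * (y * (n : ℝ) ^ ε))) *
        (Real.exp (1 + Real.log n) * (W * Real.exp ((n : ℝ) ^ (th + ε)))) := by
    refine hA.trans ?_
    apply mul_le_mul_of_nonneg_left _ (Real.exp_nonneg _)
    refine hfib.trans ((sum_le_sum hfb).trans (hsum1.trans ?_))
    exact mul_le_mul_of_nonneg_right hn1e (by positivity)
  refine htot.trans ?_
  rw [hWd]
  have hcomb : Real.exp (-(ε * bb p / 16 * (y * (n : ℝ) ^ ε))) *
        (Real.exp (1 + Real.log n) * ((n.factorial : ℝ) * Real.exp ((T : ℝ) ^ 3 + 1 +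
          Real.log n + ∑ v ∈ range (T + 2), κ v + (n : ℝ) ^ (th + ε)) *
            Real.exp ((n : ℝ) ^ (th + ε)))) = (n.factorial : ℝ) *
      Real.exp (-(ε * bb p / 16 * (y * (n : ℝ) ^ ε)) + (1 + Real.log n) + ((T : ℝ) ^ 3 + 1 +
          Real.log n + ∑ v ∈ range (T + 2), κ v + (n : ℝ) ^ (th + ε)) + (n : ℝ) ^ (th + ε)) := by
    simp only [Real.exp_add]
    ring
  rw [hcomb]
  apply mul_le_mul_of_nonneg_left _ (Nat.cast_nonneg _)
  rw [Real.exp_le_exp]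
  have hlast : 8 * y ≤ ε * bb p / 16 * (y * (n : ℝ) ^ ε) := by
    have := mul_le_mul_of_nonneg_left e1 (by linarith : (0 : ℝ) ≤ y)
    linarith
  linarith

end Pool.Agent.Helper38.UX
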